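import Pool.Agent.H658.MT.Uniq

set_option autoImplicit false

/-!
`MP_829dc7_lc`: the maximal tensor product of separable C*-algebras is a Borel construction.

For a separable infinite-dimensional complex Hilbert space `H`, `Γ = B(H)^ℕ` carries the product
of the Borel structures of the weak operator topology, and `C*(γ)` is the C*-algebra generated by
the entries of `γ`. There is a Borel map `Φ : Γ × Γ → Γ` such that `C*(Φ(γ,δ))` is the maximal
C*-tensor product of `C*(γ)` and `C*(δ)` for all `γ, δ ∈ Γ`.
-/

namespace Pool.Agent.Results.MP_829dc7_lc.BorelMaxTensor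

open Pool.Agent.H658.MT

universe u

/-- The coding space `Γ(H) = B(H)^ℕ`. -/
abbrev Code (H : Type u) [NormedAddCommGroup H] [InnerProductSpace ℂ H] : Type u :=
  ℕ → (H →L[ℂ] H)

/-- The product Borel structure on `Γ(H)`; each factor `B(H)` carries the Borel structure
generated by the weakly open sets. -/
@[reducible]
noncomputable def codeBorel (H : Type u) [NormedAddCommGroup H] [InnerProductSpace ℂ H] :
    MeasurableSpace (Code H) :=
  @MeasurableSpace.pi ℕ (fun _ => H →L[ℂ] H) (fun _ => wotBorel)

/-- The maximal tensor product is a Borel construction. -/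
theorem result (H : Type u) [NormedAddCommGroup H] [InnerProductSpace ℂ H] [CompleteSpace H]
    [TopologicalSpace.SeparableSpace H] (hH : ¬ FiniteDimensional ℂ H) :
    ∃ Φ : Code H × Code H → Code H,
      @Measurable (Code H × Code H) (Code H)
        (@Prod.instMeasurableSpace _ _ (codeBorel H) (codeBorel H)) (codeBorel H) Φ ∧
      ∀ γ δ : Code H, IsMaxTensor (CStar γ) (CStar δ) (CStar (Φ (γ, δ))) := by
  obtain ⟨e⟩ := exists_basis hH
  let m : MeasurableSpace (Code H) := codeBorel H
  have h1 : ∀ n : ℕ, @Measurable (Code H) (H →L[ℂ] H) (codeBorel H) wotBorel (fun γ => γ n) :=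
    fun n => @measurable_pi_apply ℕ (fun _ => H →L[ℂ] H) (fun _ => wotBorel) n
  have h2 : ∀ n : ℕ, CM fun z : Code H × Code H => z.1 n := fun n ξ η =>
    (@Measurable.comp _ _ _ _ wotBorel _ _ _ (measurable_coeff ξ η) (h1 n)).comp measurable_fst
  have h3 : ∀ n : ℕ, CM fun z : Code H × Code H => z.2 n := fun n ξ η =>
    (@Measurable.comp _ _ _ _ wotBorel _ _ _ (measurable_coeff ξ η) (h1 n)).comp measurable_snd
  obtain ⟨Φ, hΦ, hΦ2⟩ := main_aux e (fun z : Code H × Code H => z.1) (fun z => z.2) h2 h3
  refine ⟨Φ, ?_, fun γ δ => hΦ2 (γ, δ)⟩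
  refine @measurable_pi_lambda _ ℕ (fun _ => H →L[ℂ] H) _ (fun _ => wotBorel) Φ fun n => ?_
  exact (hΦ n).measurable

end Pool.Agent.Results.MP_829dc7_lc.BorelMaxTensor
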